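import Mathlib

namespace Pool.Agent.Results.MP_39cb5d_an.Counter

open Real Filter BoundedContinuousFunction

noncomputable def L (y : ℝ) : ℝ := y / 4 + sin (π / 2 * y) / 10

theorem Ls (x y : ℝ) : |sin (π / 2 * x) / 10 - sin (π / 2 * y) / 10| ≤ |x - y| / 5 := by
  have h := abs_sin_sub_sin_le (π / 2 * x) (π / 2 * y)
  rw [← mul_sub, abs_mul, abs_of_pos (a := π / 2) (by positivity)] at h
  rw [← sub_div, abs_div, abs_of_pos (a := (10 : ℝ)) (by norm_num)]
  nlinarith [pi_le_four, abs_nonneg (x - y)]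

theorem Lm : StrictMono L := fun x y h => by
  have := (abs_le.1 (Ls x y)).2
  rw [abs_of_neg (sub_neg.2 h)] at this
  simp only [L]
  linarith

noncomputable def T (ψ : ℝ →ᵇ ℝ) : ℝ →ᵇ ℝ :=
  ofNormedAddCommGroup (fun v => L (4 * v + ψ (4 * v)) - v) (by unfold L; fun_prop) (‖ψ‖ / 4 + 1)
    fun v => by
      have h1 := abs_le.1 (ψ.norm_coe_le_norm (4 * v))
      have h2 := abs_le.1 (abs_sin_le_one (π / 2 * (4 * v + ψ (4 * v))))
      rw [Real.norm_eq_abs, abs_le, L]
      constructor <;> linarith [h1.1, h1.2, h2.1, h2.2]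

theorem Tc : ContractingWith (1 / 2) T := by
  refine ⟨by norm_num, LipschitzWith.of_dist_le_mul fun f g => (dist_le (by positivity)).2 fun v => ?_⟩
  have h1 := f.dist_coe_le_dist (g := g) (4 * v)
  have h2 := abs_le.1 (Ls (4 * v + f (4 * v)) (4 * v + g (4 * v)))
  rw [add_sub_add_left_eq_sub] at h2
  rw [Real.dist_eq] at h1 ⊢
  have h3 := abs_le.1 (le_refl |f (4 * v) - g (4 * v)|)
  show |L _ - v - (L _ - v)| ≤ _
  rw [abs_le, L, L]
  push_cast
  constructor <;> linarith [h2.1, h2.2, h3.1, h3.2, dist_nonneg (x := f) (y := g)]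

theorem L2 (y : ℝ) : L (y + 2) = y / 2 + 1 / 2 - L y := by
  rw [L, L, show π / 2 * (y + 2) = π / 2 * y + π by ring, sin_add_pi]
  ring

theorem L4 (y : ℝ) : L (y + 4) = L y + 1 := by
  rw [show y + 4 = y + 2 + 2 by ring, L2, L2]
  ring

theorem exF : ∃ F : ℝ ≃o ℝ, (∀ v, F v = L (F (4 * v))) ∧ ∀ v, F (v + 1) = F v + 1 := by
  let ψ := Tc.fixedPoint
  have h : ∀ v, v + ψ v = L (4 * v + ψ (4 * v)) := fun v => by
    have : T ψ v = ψ v := by rw [Tc.fixedPoint_isFixedPt]
    rw [← this]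
    show v + (L _ - v) = _
    ring
  have per : ∀ v, ψ (v + 1) = ψ v := fun v => by
    have h1 : ∀ n v, T^[n] 0 (v + 1) = T^[n] 0 v := fun n => by
      induction n with
      | zero => simp
      | succ n ih =>
        intro v
        rw [Function.iterate_succ_apply']
        show L _ - _ = L _ - _
        rw [show 4 * (v + 1) = 4 * v + 1 + 1 + 1 + 1 by ring, ih, ih, ih, ih,
          show 4 * v + 1 + 1 + 1 + 1 + T^[n] 0 (4 * v) = 4 * v + T^[n] 0 (4 * v) + 4 by ring, L4]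
        ring
    exact (isClosed_eq (continuous_eval_const (v + 1)) (continuous_eval_const v)).mem_of_tendsto
      (Tc.tendsto_iterate_fixedPoint 0) (Eventually.of_forall fun n => h1 n v)
  have bd : ∀ v, |ψ v| ≤ ‖ψ‖ := fun v => ψ.norm_coe_le_norm v
  have sm : StrictMono fun v => v + ψ v := fun a b hab => by
    by_contra hc
    have h1 : ∀ n : ℕ, 4 ^ n * b + ψ (4 ^ n * b) ≤ 4 ^ n * a + ψ (4 ^ n * a) := fun n => by
      induction n with
      | zero => simpa using hc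
      | succ n ih =>
        rw [h, h (4 ^ n * a), Lm.le_iff_le] at ih
        simpa only [pow_succ', mul_assoc] using ih
    obtain ⟨n, hn⟩ := pow_unbounded_of_one_lt (2 * ‖ψ‖ / (b - a)) (by norm_num : (1 : ℝ) < 4)
    rw [div_lt_iff₀ (sub_pos.2 hab)] at hn
    linarith [h1 n, (abs_le.1 (bd (4 ^ n * a))).2, (abs_le.1 (bd (4 ^ n * b))).1]
  have su : Function.Surjective fun v => v + ψ v := fun y =>
    intermediate_value_univ (y - ‖ψ‖) (y + ‖ψ‖) (by fun_prop)
      ⟨by linarith [(abs_le.1 (bd (y - ‖ψ‖))).2], by linarith [(abs_le.1 (bd (y + ‖ψ‖))).1]⟩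
  refine ⟨sm.orderIsoOfSurjective _ su, h, fun v => ?_⟩
  show v + 1 + ψ (v + 1) = v + ψ v + 1
  rw [per]
  ring

theorem result : ∃ r : ℕ, 2 ≤ r ∧ ∃ φ : ℝ → ℝ, Continuous φ ∧ Monotone φ ∧
    (∀ x, φ (∑ j ∈ Finset.range r, φ (x - j)) = x) ∧
    φ ≠ fun x => x / √r + (√r - 1) / 2 := by
  obtain ⟨F, h1, h2⟩ := exF
  have h3 : ∀ v, F (v - 1) = F v - 1 := fun v => by
    rw [eq_sub_iff_add_eq, ← h2, sub_add_cancel]
  refine ⟨4, by norm_num, fun y => F ((F.symm y + 1) / 2), ?_, fun x y hxy => ?_, fun x => ?_,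
    fun h => ?_⟩
  · exact F.continuous.comp ((F.symm.continuous.add continuous_const).div_const 2)
  · exact F.monotone (by linarith [F.symm.monotone hxy])
  · obtain ⟨u, rfl⟩ := F.surjective x
    have e1 : F u - 1 = F (u - 1) := (h3 u).symm
    have e2 : F u - 2 = F (u - 1 - 1) := by rw [h3, h3]; ring
    have e3 : F u - 3 = F (u - 1 - 1 - 1) := by rw [h3, h3, h3]; ring
    have e4 : F (u / 2 + 1 / 2) = F (2 * u) / 2 + 1 / 2 - F (u / 2) := by
      rw [h1, h1 (u / 2), show 4 * (u / 2 + 1 / 2) = 2 * u + 1 + 1 by ring, h2, h2, add_assoc,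
        one_add_one_eq_two, L2, show 4 * (u / 2) = 2 * u by ring]
    simp only [Finset.sum_range_succ, Finset.range_zero, Finset.sum_empty]
    push_cast
    rw [sub_zero, e1, e2, e3]
    simp only [OrderIso.symm_apply_apply]
    rw [show (u + 1) / 2 = u / 2 + 1 / 2 by ring, show (u - 1 + 1) / 2 = u / 2 by ring,
      show (u - 1 - 1 + 1) / 2 = u / 2 + 1 / 2 - 1 by ring,
      show (u - 1 - 1 - 1 + 1) / 2 = u / 2 - 1 by ring, h3, h3, e4,
      show ∀ a b : ℝ, 0 + (a / 2 + 1 / 2 - b) + b + (a / 2 + 1 / 2 - b - 1) + (b - 1) = a - 1 from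
        fun a b => by ring, ← h3, OrderIso.symm_apply_apply]
    congr 1
    ring
  · have s : √((4 : ℕ) : ℝ) = 2 := by
      rw [show ((4 : ℕ) : ℝ) = 2 ^ 2 by norm_num, sqrt_sq zero_le_two]
    have a : ∀ u, F ((u + 1) / 2) = F u / 2 + 1 / 2 := fun u => by
      have := congrFun h (F u)
      simp only [OrderIso.symm_apply_apply, s] at this
      linarith
    obtain ⟨u, hu⟩ := F.surjective 0
    have b := a ((u + 1) / 2)
    rw [a u, h1, show 4 * (((u + 1) / 2 + 1) / 2) = u + 1 + 1 + 1 by ring, h2, h2, h2, hu,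
      show (0 : ℝ) + 1 + 1 + 1 = 1 + 2 by ring, L2, L, mul_one, sin_pi_div_two] at b
    norm_num at b

end Pool.Agent.Results.MP_39cb5d_an.Counter
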